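import Mathlib

/-!
# DBE: the de Rham algebra of a commutative algebra (definitions and basic lemmas)

`DR B R` is the exterior algebra of the Kähler differentials of `R` over `B`; `dd` is the universal
derivation with values in `DR B R`, `dR` the de Rham differential.
-/

set_option autoImplicit false

namespace Pool.Agent.DBE

open KaehlerDifferential MulOpposite

universe u v w

noncomputable section

section basic

variable (B : Type u) (R : Type v) [CommRing B] [CommRing R] [Algebra B R]

/-- the de Rham algebra -/
abbrev DR : Type v := ExteriorAlgebra R (Ω[R⁄B])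

/-- the universal derivation with values in the de Rham algebra -/
def dd : R →+ DR B R where
  toFun a := ExteriorAlgebra.ι R (D B R a)
  map_zero' := by simp
  map_add' := by intro a b; simp

/-- the inclusion of the functions into the de Rham algebra -/
abbrev fn : R →+* DR B R := algebraMap R (DR B R)

variable {B R}

theorem dd_def (a : R) : dd B R a = ExteriorAlgebra.ι R (D B R a) := rfl

theorem dd_mul (a b : R) : dd B R (a * b) = fn B R a * dd B R b + fn B R b * dd B R a := by
  rw [dd_def, Derivation.leibniz, map_add, map_smul, map_smul, Algebra.smul_def,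
    Algebra.smul_def]
  rfl

theorem dd_algebraMap (b : B) : dd B R (algebraMap B R b) = 0 := by
  rw [dd_def, Derivation.map_algebraMap, map_zero]

theorem dd_sq (a : R) : dd B R a * dd B R a = 0 := ExteriorAlgebra.ι_sq_zero _

theorem dd_swap (a b : R) : dd B R a * dd B R b = - (dd B R b * dd B R a) :=
  eq_neg_of_add_eq_zero_left (ExteriorAlgebra.ι_add_mul_swap _ _)

theorem fn_comm (a : R) (x : DR B R) : fn B R a * x = x * fn B R a := Algebra.commutes a x

/-- induction principle for the de Rham algebra -/
theorem DR_induction {P : DR B R → Prop} (hf : ∀ a, P (fn B R a))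
    (hm : ∀ a x, P x → P (dd B R a * x)) (hs : ∀ (a : R) x, P x → P (fn B R a * x))
    (ha : ∀ x y, P x → P y → P (x + y)) (x : DR B R) : P x := by
  have h0 : P 0 := by simpa using hf 0
  have key : ∀ w : Ω[R⁄B], ∀ y, P y → P (ExteriorAlgebra.ι R w * y) := by
    intro w y hy
    have hw : w ∈ Submodule.span R (Set.range (D B R)) := by
      rw [KaehlerDifferential.span_range_derivation]; exact Submodule.mem_top
    induction hw using Submodule.span_induction with
    | mem z hz => obtain ⟨a, rfl⟩ := hz; exact hm a y hy
    | zero => simpa using h0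
    | add z z' _ _ h1 h2 => rw [map_add, add_mul]; exact ha _ _ h1 h2
    | smul c z _ h1 =>
      rw [map_smul, smul_mul_assoc, Algebra.smul_def]
      exact hs c _ h1
  have key2 : ∀ y, P y → P (x * y) := by
    refine ExteriorAlgebra.induction (C := fun x => ∀ y, P y → P (x * y)) ?_ ?_ ?_ ?_ x
    · intro r y hy; exact hs r y hy
    · intro w y hy; exact key w y hy
    · intro a b h1 h2 y hy; rw [mul_assoc]; exact h1 _ (h2 _ hy)
    · intro a b h1 h2 y hy; rw [add_mul]; exact ha _ _ (h1 _ hy) (h2 _ hy)
  have := key2 1 (by simpa using hf 1)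
  simpa using this

/-- two additive maps out of the de Rham algebra which agree on functions and have the same
behaviour are equal -/
theorem DR_addHom_ext {A : Type w} [AddCommGroup A] (F G : DR B R →+ A)
    (hf : ∀ a, F (fn B R a) = G (fn B R a))
    (hm : ∀ a x, F x = G x → F (dd B R a * x) = G (dd B R a * x))
    (hs : ∀ (a : R) x, F x = G x → F (fn B R a * x) = G (fn B R a * x)) : F = G := by
  ext x
  induction x using DR_induction with
  | hf a => exact hf a
  | hm a x h => exact hm a x h
  | hs a x h => exact hs a x h
  | ha x y h1 h2 => rw [map_add, map_add, h1, h2]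

end basic

section lift

variable {B : Type u} {R : Type v} [CommRing B] [CommRing R] [Algebra B R]
variable {A : Type w} [Ring A]

/-- data for a ring homomorphism out of the de Rham algebra -/
structure DRData (B : Type u) (R : Type v) [CommRing B] [CommRing R] [Algebra B R]
    (A : Type w) [Ring A] where
  φ : R →+* A
  δ : R →+ A
  comm : ∀ a x, φ a * x = x * φ a
  base : ∀ b : B, δ (algebraMap B R b) = 0
  leib : ∀ a b, δ (a * b) = φ a * δ b + φ b * δ a
  sq : ∀ a, δ a * δ a = 0

namespace DRData

variable (S : DRData B R A)

theorem base' (b : B) (a : R) : S.δ (algebraMap B R b * a) = S.φ (algebraMap B R b) * S.δ a := by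
  rw [S.leib, S.base, mul_zero, add_zero]

theorem swap (a b : R) : S.δ a * S.δ b = - (S.δ b * S.δ a) := by
  have h := S.sq (a + b)
  rw [map_add, add_mul, mul_add, mul_add, S.sq, S.sq, zero_add, add_zero] at h
  exact eq_neg_of_add_eq_zero_left h

/-- the algebra structure of the target -/
abbrev alg : Algebra R A := S.φ.toAlgebra' S.comm

/-- the module structure of the target over the base -/
abbrev modB : Module B A := Module.compHom A (S.φ.comp (algebraMap B R))

/-- the linear map on the Kähler differentials -/
def lin : letI := S.alg; Ω[R⁄B] →ₗ[R] A :=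
  letI := S.alg
  letI := S.modB
  haveI : IsScalarTower B R A := ⟨fun b r x => by
    change S.φ (b • r) * x = S.φ (algebraMap B R b) * (S.φ r * x)
    rw [Algebra.smul_def, map_mul, mul_assoc]⟩
  Derivation.liftKaehlerDifferential
    { toFun := S.δ
      map_add' := S.δ.map_add
      map_smul' := by
        intro b a
        change S.δ (b • a) = S.φ (algebraMap B R b) * S.δ a
        rw [Algebra.smul_def, S.base']
      map_one_eq_zero' := by
        change S.δ 1 = 0
        simpa using S.base 1
      leibniz' := by
        intro a b
        exact S.leib a b }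

theorem lin_D (a : R) : S.lin (D B R a) = S.δ a := by
  letI := S.alg
  letI := S.modB
  haveI : IsScalarTower B R A := ⟨fun b r x => by
    change S.φ (b • r) * x = S.φ (algebraMap B R b) * (S.φ r * x)
    rw [Algebra.smul_def, map_mul, mul_assoc]⟩
  exact Derivation.liftKaehlerDifferential_comp_D _ _

theorem lin_sq (w : Ω[R⁄B]) : S.lin w * S.lin w = 0 := by
  letI := S.alg
  have hsw : ∀ w w' : Ω[R⁄B], S.lin w * S.lin w' = - (S.lin w' * S.lin w) := by
    intro w w'
    have hw : w ∈ Submodule.span R (Set.range (D B R)) := by
      rw [KaehlerDifferential.span_range_derivation]; exact Submodule.mem_top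
    have hw' : w' ∈ Submodule.span R (Set.range (D B R)) := by
      rw [KaehlerDifferential.span_range_derivation]; exact Submodule.mem_top
    induction hw using Submodule.span_induction with
    | mem z hz =>
      obtain ⟨a, rfl⟩ := hz
      induction hw' using Submodule.span_induction with
      | mem z hz => obtain ⟨b, rfl⟩ := hz; rw [S.lin_D, S.lin_D]; exact S.swap a b
      | zero => simp
      | add z z' _ _ h1 h2 => rw [map_add, mul_add, add_mul, h1, h2, neg_add]
      | smul c z _ h1 => rw [map_smul, mul_smul_comm, smul_mul_assoc, h1, smul_neg]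
    | zero => simp
    | add z z' _ _ h1 h2 => rw [map_add, mul_add, add_mul, h1, h2, neg_add]
    | smul c z _ h1 => rw [map_smul, mul_smul_comm, smul_mul_assoc, h1, smul_neg]
  have hw : w ∈ Submodule.span R (Set.range (D B R)) := by
    rw [KaehlerDifferential.span_range_derivation]; exact Submodule.mem_top
  induction hw using Submodule.span_induction with
  | mem z hz => obtain ⟨a, rfl⟩ := hz; rw [S.lin_D]; exact S.sq a
  | zero => simp
  | add z z' _ _ h1 h2 =>
    rw [map_add, mul_add, add_mul, add_mul, h1, h2, hsw z z']
    abel
  | smul c z _ h1 => rw [map_smul, mul_smul_comm, smul_mul_assoc, h1, smul_zero, smul_zero]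

/-- the ring homomorphism out of the de Rham algebra -/
def hom : DR B R →+* A :=
  letI := S.alg
  (ExteriorAlgebra.lift R ⟨S.lin, S.lin_sq⟩ : ExteriorAlgebra R (Ω[R⁄B]) →ₐ[R] A).toRingHom

theorem hom_fn (a : R) : S.hom (fn B R a) = S.φ a := by
  letI := S.alg
  exact (ExteriorAlgebra.lift R ⟨S.lin, S.lin_sq⟩ :
    ExteriorAlgebra R (Ω[R⁄B]) →ₐ[R] A).commutes a

theorem hom_dd (a : R) : S.hom (dd B R a) = S.δ a := by
  letI := S.alg
  have : S.hom (dd B R a) = S.lin (D B R a) :=
    ExteriorAlgebra.lift_ι_apply R S.lin S.lin_sq (D B R a)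
  rw [this, S.lin_D]

end DRData

/-- two ring homomorphisms out of the de Rham algebra are equal if they agree on functions and
their differentials -/
theorem DR_hom_ext {F G : DR B R →+* A} (hf : ∀ a, F (fn B R a) = G (fn B R a))
    (hd : ∀ a, F (dd B R a) = G (dd B R a)) : F = G := by
  ext x
  induction x using DR_induction with
  | hf a => exact hf a
  | hm a x h => rw [map_mul, map_mul, hd, h]
  | hs a x h => rw [map_mul, map_mul, hf, h]
  | ha x y h1 h2 => rw [map_add, map_add, h1, h2]

end lift

section functoriality

variable {B B' : Type u} {R R' : Type v} [CommRing B] [CommRing R] [Algebra B R]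
  [CommRing B'] [CommRing R'] [Algebra B' R']

/-- data of the map induced by a ring homomorphism `f : R → R'` which maps `B` into `B'` -/
def mapData (f : R →+* R') (hf : ∀ b : B, ∃ b' : B', f (algebraMap B R b) = algebraMap B' R' b') :
    DRData B R (DR B' R') where
  φ := (fn B' R').comp f
  δ := (dd B' R').comp f.toAddMonoidHom
  comm a x := fn_comm _ _
  base b := by
    obtain ⟨b', hb'⟩ := hf b
    change dd B' R' (f (algebraMap B R b)) = 0
    rw [hb', dd_algebraMap]
  leib a b := by
    change dd B' R' (f (a * b)) = _
    rw [map_mul, dd_mul]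
    rfl
  sq a := dd_sq _

/-- the map of de Rham algebras -/
def DRmap (f : R →+* R') (hf : ∀ b : B, ∃ b' : B', f (algebraMap B R b) = algebraMap B' R' b') :
    DR B R →+* DR B' R' := (mapData f hf).hom

theorem DRmap_fn (f : R →+* R')
    (hf : ∀ b : B, ∃ b' : B', f (algebraMap B R b) = algebraMap B' R' b') (a : R) :
    DRmap f hf (fn B R a) = fn B' R' (f a) := (mapData f hf).hom_fn a

theorem DRmap_dd (f : R →+* R')
    (hf : ∀ b : B, ∃ b' : B', f (algebraMap B R b) = algebraMap B' R' b') (a : R) :
    DRmap f hf (dd B R a) = dd B' R' (f a) := (mapData f hf).hom_dd a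

end functoriality

section algmap

variable {B : Type u} {R R' R'' : Type v} [CommRing B] [CommRing R] [Algebra B R]
  [CommRing R'] [Algebra B R'] [CommRing R''] [Algebra B R'']

/-- the map of de Rham algebras induced by a homomorphism of `B`-algebras -/
def rs (f : R →ₐ[B] R') : DR B R →+* DR B R' :=
  DRmap (f : R →+* R') (fun b => ⟨b, f.commutes b⟩)

@[simp] theorem rs_fn (f : R →ₐ[B] R') (a : R) : rs f (fn B R a) = fn B R' (f a) := DRmap_fn _ _ a

@[simp] theorem rs_dd (f : R →ₐ[B] R') (a : R) : rs f (dd B R a) = dd B R' (f a) := DRmap_dd _ _ a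

theorem rs_id (x : DR B R) : rs (AlgHom.id B R) x = x := by
  have : rs (AlgHom.id B R) = RingHom.id _ := DR_hom_ext (by intro a; simp) (by intro a; simp)
  rw [this]; rfl

theorem rs_comp (f : R →ₐ[B] R') (g : R' →ₐ[B] R'') (x : DR B R) :
    rs (g.comp f) x = rs g (rs f x) := by
  have : rs (g.comp f) = (rs g).comp (rs f) :=
    DR_hom_ext (by intro a; simp) (by intro a; simp)
  rw [this]; rfl

end algmap

end

end Pool.Agent.DBE
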