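import Pool.Agent.DBE.DR

/-!
# DBE: the de Rham differential
-/

set_option autoImplicit false

namespace Pool.Agent.DBE

open KaehlerDifferential MulOpposite

universe u v w

noncomputable section

section involution

variable (B : Type u) (R : Type v) [CommRing B] [CommRing R] [Algebra B R]

/-- data of the grade involution -/
def invData : DRData B R (DR B R) where
  φ := fn B R
  δ := -dd B R
  comm a x := fn_comm _ _
  base b := by change -(dd B R _) = 0; rw [dd_algebraMap, neg_zero]
  leib a b := by
    change -(dd B R _) = _ * -(dd B R _) + _ * -(dd B R _)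
    rw [dd_mul, mul_neg, mul_neg, neg_add]
  sq a := by change -(dd B R _) * -(dd B R _) = 0; rw [neg_mul_neg, dd_sq]

/-- the grade involution: `(-1)^i` on forms of degree `i` -/
def inv : DR B R →+* DR B R := (invData B R).hom

variable {B R}

@[simp] theorem inv_fn (a : R) : inv B R (fn B R a) = fn B R a := (invData B R).hom_fn a

@[simp] theorem inv_dd (a : R) : inv B R (dd B R a) = - dd B R a := (invData B R).hom_dd a

@[simp] theorem inv_inv (x : DR B R) : inv B R (inv B R x) = x := by
  have : (inv B R).comp (inv B R) = RingHom.id _ :=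
    DR_hom_ext (by intro a; simp) (by intro a; simp)
  exact congrArg (fun F => F x) this

/-- exact one-forms `da` anticommute with forms -/
theorem dd_mul_eq (a : R) (x : DR B R) : dd B R a * x = inv B R x * dd B R a := by
  induction x using DR_induction with
  | hf b => rw [inv_fn, fn_comm]
  | hm b x h =>
    rw [← mul_assoc, dd_swap, neg_mul, mul_assoc, h, map_mul, inv_dd, neg_mul, neg_mul, mul_assoc]
  | hs b x h => rw [← mul_assoc, ← fn_comm, mul_assoc, h, map_mul, inv_fn, mul_assoc]
  | ha x y h1 h2 => rw [mul_add, map_add, add_mul, h1, h2]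

end involution

section tw

variable (B : Type u) (R : Type v) [CommRing B] [CommRing R] [Algebra B R]

/-- the twisted bimodule `DR` -/
def Tw : Type v := DR B R

instance : AddCommGroup (Tw B R) := inferInstanceAs (AddCommGroup (DR B R))

instance : Module (DR B R) (Tw B R) :=
  Module.compHom (DR B R) (inv B R)

instance : Module (DR B R)ᵐᵒᵖ (Tw B R) :=
  inferInstanceAs (Module (DR B R)ᵐᵒᵖ (DR B R))

instance : SMulCommClass (DR B R) (DR B R)ᵐᵒᵖ (Tw B R) where
  smul_comm a b x := by
    exact (mul_assoc (inv B R a) (show DR B R from x) (unop b)).symm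

variable {B R}

/-- elements of the twisted bimodule -/
def toTw : DR B R →+ Tw B R where
  toFun x := x
  map_zero' := rfl
  map_add' _ _ := rfl

/-- elements of the twisted bimodule -/
def ofTw : Tw B R →+ DR B R where
  toFun x := x
  map_zero' := rfl
  map_add' _ _ := rfl

@[simp] theorem ofTw_toTw (x : DR B R) : ofTw (toTw x) = x := rfl

theorem smul_tw (a : DR B R) (x : Tw B R) : a • x = toTw (inv B R a * ofTw x) := rfl

theorem op_smul_tw (a : (DR B R)ᵐᵒᵖ) (x : Tw B R) : a • x = toTw (ofTw x * unop a) := rfl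

/-- function part: `a ↦ (a, da)` -/
def φ0 : R →+* TrivSqZeroExt (DR B R) (Tw B R) where
  toFun a := TrivSqZeroExt.inl (fn B R a) + TrivSqZeroExt.inr (toTw (dd B R a))
  map_zero' := by simp
  map_one' := by
    have : dd B R 1 = 0 := by simpa using dd_algebraMap (B := B) (R := R) 1
    rw [this]; simp
  map_add' a b := by
    apply TrivSqZeroExt.ext <;> simp
  map_mul' a b := by
    apply TrivSqZeroExt.ext
    · simp
    · simp only [TrivSqZeroExt.snd_add, TrivSqZeroExt.snd_inl, TrivSqZeroExt.snd_inr, zero_add,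
        TrivSqZeroExt.snd_mul, TrivSqZeroExt.fst_add, TrivSqZeroExt.fst_inl,
        TrivSqZeroExt.fst_inr, add_zero, smul_tw, op_smul_tw, inv_fn, ofTw_toTw, unop_op]
      rw [dd_mul, map_add]
      congr 2
      rw [fn_comm]

/-- differential part: `a ↦ (da, 0)` -/
def δ0 : R →+ TrivSqZeroExt (DR B R) (Tw B R) where
  toFun a := TrivSqZeroExt.inl (dd B R a)
  map_zero' := by simp
  map_add' a b := by simp

/-- data of the de Rham differential -/
def dData : DRData B R (TrivSqZeroExt (DR B R) (Tw B R)) where
  φ := φ0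
  δ := δ0
  comm a x := by
    apply TrivSqZeroExt.ext
    · simp [φ0, fn_comm]
    · simp only [φ0, RingHom.coe_mk, MonoidHom.coe_mk, OneHom.coe_mk, TrivSqZeroExt.snd_mul,
        TrivSqZeroExt.fst_add, TrivSqZeroExt.fst_inl, TrivSqZeroExt.fst_inr, add_zero,
        TrivSqZeroExt.snd_add, TrivSqZeroExt.snd_inl, TrivSqZeroExt.snd_inr, zero_add, smul_tw,
        op_smul_tw, inv_fn, ofTw_toTw, unop_op, dd_mul_eq, fn_comm]
      abel
  base b := by
    change TrivSqZeroExt.inl (dd B R _) = 0
    rw [dd_algebraMap, TrivSqZeroExt.inl_zero]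
  leib a b := by
    apply TrivSqZeroExt.ext
    · simp [φ0, δ0, dd_mul]
    · simp only [φ0, δ0, RingHom.coe_mk, MonoidHom.coe_mk, OneHom.coe_mk, AddMonoidHom.coe_mk,
        ZeroHom.coe_mk, TrivSqZeroExt.snd_mul, TrivSqZeroExt.fst_add, TrivSqZeroExt.fst_inl,
        TrivSqZeroExt.fst_inr, add_zero, TrivSqZeroExt.snd_add, TrivSqZeroExt.snd_inl,
        TrivSqZeroExt.snd_inr, zero_add, smul_tw, op_smul_tw, ofTw_toTw, unop_op, smul_zero]
      rw [← map_add, dd_swap, neg_add_cancel, map_zero]
  sq a := by
    change TrivSqZeroExt.inl (dd B R a) * TrivSqZeroExt.inl (dd B R a) = 0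
    rw [TrivSqZeroExt.inl_mul_inl, dd_sq, TrivSqZeroExt.inl_zero]

variable (B R)

/-- the de Rham differential -/
def dR : DR B R →+ DR B R :=
  (ofTw.comp ((TrivSqZeroExt.sndHom (DR B R) (Tw B R)).toAddMonoidHom)).comp
    (dData.hom : DR B R →+* TrivSqZeroExt (DR B R) (Tw B R)).toAddMonoidHom

variable {B R}

theorem dR_def (x : DR B R) : dR B R x = ofTw (dData.hom x).snd := rfl

theorem fst_dData (x : DR B R) : (dData.hom x).fst = x := by
  let F : TrivSqZeroExt (DR B R) (Tw B R) →+* DR B R :=
    { toFun := fun y => y.fst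
      map_one' := rfl
      map_mul' := fun _ _ => rfl
      map_zero' := rfl
      map_add' := fun _ _ => rfl }
  have : F.comp dData.hom = RingHom.id (DR B R) := by
    apply DR_hom_ext
    · intro a
      change (dData.hom (fn B R a)).fst = _
      rw [dData.hom_fn]
      simp [dData, φ0]
    · intro a
      change (dData.hom (dd B R a)).fst = _
      rw [dData.hom_dd]
      simp [dData, δ0]
  exact congrArg (fun F => F x) this

/-- Leibniz rule -/
theorem dR_mul (x y : DR B R) : dR B R (x * y) = dR B R x * y + inv B R x * dR B R y := by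
  rw [dR_def, map_mul, TrivSqZeroExt.snd_mul, fst_dData, fst_dData, smul_tw, op_smul_tw]
  simp only [map_add, ofTw_toTw, unop_op, ← dR_def]
  rw [add_comm]

@[simp] theorem dR_fn (a : R) : dR B R (fn B R a) = dd B R a := by
  rw [dR_def, dData.hom_fn]
  simp [dData, φ0]

@[simp] theorem dR_dd (a : R) : dR B R (dd B R a) = 0 := by
  rw [dR_def, dData.hom_dd]
  simp [dData, δ0]

theorem dR_one : dR B R 1 = 0 := by
  have := dR_fn (B := B) (R := R) 1
  rw [map_one] at this
  rw [this]; simpa using dd_algebraMap (B := B) (R := R) 1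

theorem dR_fn_mul (a : R) (x : DR B R) :
    dR B R (fn B R a * x) = dd B R a * x + fn B R a * dR B R x := by
  rw [dR_mul, dR_fn, inv_fn]

theorem dR_dd_mul (a : R) (x : DR B R) : dR B R (dd B R a * x) = - (dd B R a * dR B R x) := by
  rw [dR_mul, dR_dd, zero_mul, inv_dd, zero_add, neg_mul]

@[simp] theorem dR_dR (x : DR B R) : dR B R (dR B R x) = 0 := by
  induction x using DR_induction with
  | hf a => rw [dR_fn, dR_dd]
  | hm a x h => rw [dR_dd_mul, map_neg, dR_dd_mul, h, mul_zero, neg_zero, neg_zero]
  | hs a x h =>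
    rw [dR_fn_mul, map_add, dR_dd_mul, dR_fn_mul, h, mul_zero, add_zero, neg_add_cancel]
  | ha x y h1 h2 => rw [map_add, map_add, h1, h2, add_zero]

theorem dR_inv (x : DR B R) : dR B R (inv B R x) = - inv B R (dR B R x) := by
  induction x using DR_induction with
  | hf a => rw [inv_fn, dR_fn, inv_dd, neg_neg]
  | hm a x h =>
    rw [map_mul, inv_dd, neg_mul, map_neg, dR_dd_mul, h, dR_dd_mul, map_neg, map_mul, inv_dd]
    simp
  | hs a x h =>
    rw [map_mul, inv_fn, dR_fn_mul, h, dR_fn_mul, map_add, map_mul, map_mul, inv_dd, inv_fn,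
      neg_add, neg_mul, neg_neg, mul_neg]
  | ha x y h1 h2 => rw [map_add, map_add, map_add, map_add, h1, h2, neg_add]

/-- the differential of a product with a closed form on the left -/
theorem dR_mul_closed_left {x : DR B R} (hx : dR B R x = 0) (y : DR B R) :
    dR B R (x * y) = inv B R x * dR B R y := by
  rw [dR_mul, hx, zero_mul, zero_add]

theorem dR_mul_closed_right (x : DR B R) {y : DR B R} (hy : dR B R y = 0) :
    dR B R (x * y) = dR B R x * y := by
  rw [dR_mul, hy, mul_zero, add_zero]

/-- naturality of the differential -/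
theorem rs_dR {R' : Type v} [CommRing R'] [Algebra B R'] (f : R →ₐ[B] R') (x : DR B R) :
    rs f (dR B R x) = dR B R' (rs f x) := by
  induction x using DR_induction with
  | hf a => rw [dR_fn, rs_dd, rs_fn, dR_fn]
  | hm a x h => rw [dR_dd_mul, map_neg, map_mul, rs_dd, h, map_mul, rs_dd, dR_dd_mul]
  | hs a x h =>
    rw [dR_fn_mul, map_add, map_mul, map_mul, rs_dd, rs_fn, h, map_mul, rs_fn, dR_fn_mul]
  | ha x y h1 h2 => rw [map_add, map_add, map_add, map_add, h1, h2]

theorem rs_inv {R' : Type v} [CommRing R'] [Algebra B R'] (f : R →ₐ[B] R') (x : DR B R) :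
    rs f (inv B R x) = inv B R' (rs f x) := by
  have : (rs f).comp (inv B R) = (inv B R').comp (rs f) :=
    DR_hom_ext (by intro a; simp) (by intro a; simp)
  exact congrArg (fun F => F x) this

end tw

section charp

variable {B : Type u} {R : Type v} [CommRing B] [CommRing R] [Algebra B R]
  (p : ℕ) [Fact p.Prime] [CharP R p]

theorem dd_pow (a : R) (n : ℕ) : dd B R (a ^ n) = (n : DR B R) * (fn B R (a ^ (n - 1)) * dd B R a) := by
  rw [dd_def, Derivation.leibniz_pow, dd_def, map_nsmul, map_smul, nsmul_eq_mul,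
    Algebra.smul_def (a ^ (n - 1))]

include p in
theorem dd_pow_char (a : R) : dd B R (a ^ p) = 0 := by
  rw [dd_pow]
  have : ((p : ℕ) : DR B R) = fn B R ((p : ℕ) : R) := (map_natCast (fn B R) p).symm
  rw [this, CharP.cast_eq_zero, map_zero, zero_mul]

theorem dR_pow_mul (a : R) (x : DR B R) :
    dR B R (fn B R (a ^ p) * x) = fn B R (a ^ p) * dR B R x := by
  rw [dR_fn_mul, dd_pow_char p, zero_mul, zero_add]

end charp

end

end Pool.Agent.DBE
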